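import Pool.Agent.Lib.MP_8a3537_gt.D1R.Sympl
import Pool.Agent.Lib.MP_8a3537_gt.D1.Tensor

/-!
# Injectivity of the assembly map in degree one

`R` is a ring with involution, `G` a group without elements of order two, `ε = 1` or `ε = -1`, and
`A = R[G]` with the involution `∑ r_g g ↦ ∑ r_g^* g⁻¹`. `Isom R G ε κ` is the group of isometries
of the hyperbolic `ε`-quadratic form on `A^κ ⊕ A^κ`, `IsGlue g ψ u` says that `u` is a copy of the
isometry `g ⊕ 1` of `ψ ⊕ -ψ`, where `ψ` is an `ε`-quadratic form over `R`, `V R` is the quotient of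
`R` by the additive subgroup generated by all `x y - y x`, `x - x^*`, `x ^ 2 - x`, and `arfR ε ψ`
is the Arf invariant (see `Pool/Agent/Lib/MP_8a3537_gt/D1R/{V,Defs,Red,Sympl}.lean`).
-/

namespace Pool.Agent.Results.MP_8a3537_gt.DegreeOne

open Matrix MonoidAlgebra Pool.Agent.Lib.MP8a3537.D1R

/-- The isometry `u ⊕ 1` of the hyperbolic form on `A^(κ ⊕ μ) ⊕ A^(κ ⊕ μ)`. -/
def IsStab {R G : Type*} [Ring R] [StarRing R] [Group G] {ε : ℤˣ} {κ : Type} [Fintype κ]
    [DecidableEq κ] (μ : Type) [Fintype μ] [DecidableEq μ] (u : Isom R G ε κ)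
    (v : Isom R G ε (κ ⊕ μ)) : Prop :=
  v.1.val = Matrix.fromBlocks (Matrix.fromBlocks u.1.val.toBlocks₁₁ 0 0 1)
    (Matrix.fromBlocks u.1.val.toBlocks₁₂ 0 0 0) (Matrix.fromBlocks u.1.val.toBlocks₂₁ 0 0 0)
    (Matrix.fromBlocks u.1.val.toBlocks₂₂ 0 0 1)

/-- The generators of the subgroup of `Isom R G ε κ` which is divided out in the definition of the
odd dimensional `L`-groups of `R[G]` (free modules): the elementary isometries
`(1, Z - ε Z^*; 0, 1)` and `(1, 0; Z - ε Z^*, 1)`, the isometries `(a, 0; 0, (a⁻¹)^*)`, and all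
isometries with entries in `R`; the last contain the flips. -/
def IsTrivial {R G : Type*} [Ring R] [StarRing R] [Group G] {ε : ℤˣ} {κ : Type} [Fintype κ]
    [DecidableEq κ] (u : Isom R G ε κ) : Prop :=
  (∃ Z, u.1.val = Matrix.fromBlocks 1 (Z - (ε : ℤ) • dual Z) 0 1) ∨
  (∃ Z, u.1.val = Matrix.fromBlocks 1 0 (Z - (ε : ℤ) • dual Z) 1) ∨
  (∃ a : (Matrix κ κ (MonoidAlgebra R G))ˣ,
    u.1.val = Matrix.fromBlocks a.val 0 0 (dual a⁻¹.val)) ∨
  (∃ c : Matrix (κ ⊕ κ) (κ ⊕ κ) R, u.1.val = c.map (MonoidAlgebra.single 1))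

/-- `u` represents zero: after adding an identity it is a product of trivial isometries. -/
def IsStablyTrivial {R G : Type*} [Ring R] [StarRing R] [Group G] {ε : ℤˣ} {κ : Type} [Fintype κ]
    [DecidableEq κ] (u : Isom R G ε κ) : Prop :=
  ∃ (μ : Type) (_ : Fintype μ) (_ : DecidableEq μ) (v : Isom R G ε (κ ⊕ μ)),
    IsStab μ u v ∧ v ∈ Subgroup.closure {w : Isom R G ε (κ ⊕ μ) | IsTrivial w}

open TensorProduct in
/-- **Theorem.** Let `R` be a ring with involution, `ε = 1` or `ε = -1`, and `G` a group without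
elements of order two.

(1) For every homomorphism `δ : G → ℤ/2` there are homomorphisms from the isometry groups
`Isom R G ε κ` to `V R` which are trivial on the trivial isometries, compatible with
stabilization, and have on `g ⊗ ψ` the value `δ(g) Arf(ψ)`.

(2) If a product of isometries `g_i ⊗ ψ_i` is stably trivial, then `∑ [g_i] ⊗ Arf(ψ_i)` is zero
in `G_ab ⊗ V(R)`.

(3) The isometries `g ⊗ ψ` exist, and (4) `Arf(ψ)` is the class of `∑ q(e_i) q(f_i)` for every
symplectic basis `e, f` of `ψ`. -/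
theorem result (R G : Type*) [Ring R] [StarRing R] [Group G] (ε : ℤˣ)
    (hG : ∀ g : G, g * g = 1 → g = 1) :
    (∀ δ : G →* Multiplicative (ZMod 2),
      ∃ e : (κ : Type) → [Fintype κ] → [DecidableEq κ] → Isom R G ε κ →* Multiplicative (V R),
        (∀ (κ : Type) [Fintype κ] [DecidableEq κ] (u : Isom R G ε κ),
          IsTrivial u → e κ u = 1) ∧
        (∀ (κ μ : Type) [Fintype κ] [DecidableEq κ] [Fintype μ] [DecidableEq μ]
          (u : Isom R G ε κ) (v : Isom R G ε (κ ⊕ μ)), IsStab μ u v → e (κ ⊕ μ) v = e κ u) ∧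
        (∀ (κ : Type) [Fintype κ] [DecidableEq κ] (g : G) (ψ : Matrix κ κ R) (u : Isom R G ε κ),
          IsUnit (ψ + (ε : ℤ) • ψᴴ) → IsGlue g ψ u →
            e κ u = if δ g = 1 then 1 else Multiplicative.ofAdd (arfR ε ψ))) ∧
    (∀ (κ : Type) [Fintype κ] [DecidableEq κ] (r : ℕ) (g : Fin r → G)
      (ψ : Fin r → Matrix κ κ R) (u : Fin r → Isom R G ε κ),
      (∀ i, IsUnit (ψ i + (ε : ℤ) • (ψ i)ᴴ)) → (∀ i, IsGlue (g i) (ψ i) (u i)) →
      IsStablyTrivial (List.ofFn u).prod →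
      ∑ i, Additive.ofMul (Abelianization.of (g i)) ⊗ₜ[ℤ] arfR ε (ψ i) = 0) ∧
    (∀ (κ : Type) [Fintype κ] [DecidableEq κ] (g : G) (ψ : Matrix κ κ R),
      IsUnit (ψ + (ε : ℤ) • ψᴴ) → ∃ u : Isom R G ε κ, IsGlue g ψ u) ∧
    (∀ (κ : Type) [Fintype κ] [DecidableEq κ] (ψ : Matrix κ κ R) (m : ℕ) (e f : Fin m → κ → R),
      IsSymplectic ε ψ e f → arfR ε ψ = arfBasis ψ e f) := by
  -- the invariants
  have h1 : ∀ δ : G →* Multiplicative (ZMod 2),
      ∃ e : (κ : Type) → [Fintype κ] → [DecidableEq κ] → Isom R G ε κ →* Multiplicative (V R),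
        (∀ (κ : Type) [Fintype κ] [DecidableEq κ] (u : Isom R G ε κ),
          IsTrivial u → e κ u = 1) ∧
        (∀ (κ μ : Type) [Fintype κ] [DecidableEq κ] [Fintype μ] [DecidableEq μ]
          (u : Isom R G ε κ) (v : Isom R G ε (κ ⊕ μ)), IsStab μ u v → e (κ ⊕ μ) v = e κ u) ∧
        (∀ (κ : Type) [Fintype κ] [DecidableEq κ] (g : G) (ψ : Matrix κ κ R) (u : Isom R G ε κ),
          IsUnit (ψ + (ε : ℤ) • ψᴴ) → IsGlue g ψ u →
            e κ u = if δ g = 1 then 1 else Multiplicative.ofAdd (arfR ε ψ)) := by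
    intro δ
    obtain ⟨P, hP⟩ := Pool.Agent.Lib.MP8a3537.D1.exists_half δ hG
    refine ⟨fun κ _ _ => eR ε κ hG hP, ?_, ?_, ?_⟩
    · intro κ _ _ u hu
      have h0 : inv1 hG hP (redM u.1.val) = 0 := by
        rcases hu with ⟨Z, hZ⟩ | ⟨Z, hZ⟩ | ⟨a, ha⟩ | ⟨c, hc⟩
        · rw [hZ, redM_fromBlocks, redM_one, redM_zero, redM_sub, redM_zsmul, redM_dual, neg_eps]
          exact inv1_upper hG hP _
        · rw [hZ, redM_fromBlocks, redM_one, redM_zero, redM_sub, redM_zsmul, redM_dual, neg_eps]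
          exact inv1_lower hG hP _
        · rw [ha, redM_fromBlocks, redM_zero, redM_dual]
          exact inv1_diag hG hP ⟨redM a.val, redM a⁻¹.val,
            by rw [← redM_mul, Units.mul_inv, redM_one], by rw [← redM_mul, Units.inv_mul, redM_one]⟩
        · have h2 := redU_isom u
          have h3 : redM u.1.val = cm 1 (c.map proj2) := by rw [hc]; exact redM_cm 1 c
          rw [h3] at h2 ⊢
          exact inv1_const hG hP _ h2
      exact eR_eq hG hP u 0 (by rw [h0, map_zero])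
    · intro κ μ _ _ _ _ u v huv
      have h2 := inv1_stab (μ := μ) hG hP (redU_isom u)
      have h3 : redM v.1.val = stabM μ 1 (redM u.1.val) := by
        rw [huv, redM_fromBlocks, redM_fromBlocks, redM_fromBlocks, redM_fromBlocks,
          redM_fromBlocks, redM_zero, redM_zero, redM_zero, redM_one]
        rfl
      refine eR_eq hG hP v _ ?_
      rw [h3, h2]
      exact ((equivV R).apply_symm_apply _).symm
    · intro κ _ _ g ψ u hψ hu
      exact eR_glue hG hP g ψ hψ u hu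
  refine ⟨h1, ?_, ?_, ?_⟩
  · intro κ _ _ r g ψ u hψ hu ⟨μ, _, _, v, hv, hv'⟩
    refine Pool.Agent.Lib.MP8a3537.D1.tensor_zero two_V _ _ ?_
    intro δ'
    -- the homomorphism to `ℤ/2`
    let δ : G →* Multiplicative (ZMod 2) :=
      MonoidHom.mk' (fun x => Multiplicative.ofAdd (δ' (Additive.ofMul (Abelianization.of x))))
        (fun x y => by rw [map_mul, ofMul_mul, map_add, ofAdd_add])
    obtain ⟨e, he1, he2, he3⟩ := h1 δ
    have h2 : e (κ ⊕ μ) v = 1 := by
      have h3 : Subgroup.closure {w : Isom R G ε (κ ⊕ μ) | IsTrivial w} ≤ (e (κ ⊕ μ)).ker := by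
        rw [Subgroup.closure_le]
        intro w hw
        exact he1 _ w hw
      exact h3 hv'
    rw [he2 κ μ _ v hv, map_list_prod, List.map_ofFn, List.prod_ofFn] at h2
    have h4 := congrArg Multiplicative.toAdd h2
    rw [toAdd_one] at h4
    refine Eq.trans ?_ h4
    rw [toAdd_prod]
    refine Finset.sum_congr rfl (fun i _ => ?_)
    change _ = Multiplicative.toAdd (e κ (u i))
    rw [he3 κ (g i) (ψ i) (u i) (hψ i) (hu i)]
    have h5 : δ (g i) = 1 ↔ δ' (Additive.ofMul (Abelianization.of (g i))) = 0 := Iff.rfl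
    by_cases h6 : δ (g i) = 1
    · rw [if_pos h6, if_pos (h5.mp h6)]; rfl
    · rw [if_neg h6, if_neg (fun h => h6 (h5.mpr h))]; rfl
  · intro κ _ _ g ψ hψ
    exact glue_exists_R ε g ψ hψ
  · intro κ _ _ ψ m e f hs
    exact arfR_basis ψ e f hs

end Pool.Agent.Results.MP_8a3537_gt.DegreeOne
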