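import Pool.Agent.Lib.MP_8a3537_gt.K2V.Final

/-!
# Injectivity of the assembly map in degree two

`R` and `S` are rings with involution, `2 = 0` in `S`, and `f : R → S` is a homomorphism of rings
with involution (for example the projection `R → R / 2 R`, for any ring with involution `R`); `ε`
is a sign, and `G` is a group without elements of order two.

* `L0s R G ε` is the group `L_n^s(R[G])`, `n` even, `ε = (-1) ^ (n / 2)`: nonsingular `ε`-quadratic
  forms on based free `R[G]`-modules, modulo hyperbolic forms and simple changes of the base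
  (`Pool/Agent/Lib/MP_8a3537_gt/K2V/L0.lean`).
* `V S` is the quotient of `S` by the additive subgroup generated by the elements `x y - y x`,
  `x - x^*`, `x ^ 2 - x`, and `arfR ε ψ ∈ V S` is the Arf invariant of the `ε`-quadratic form `ψ`
  over `S` (`D1R/V.lean`, `D1R/Red.lean`); (5) says that it is what its name says.
* `H2 G` is `H_2(G; ℤ/2)`, defined by the bar complex. A word `x_0, ..., x_(h-1)` with
  `x_0² ⋯ x_(h-1)² = 1` (this is `bd x h = 1`) is a map of the closed surface with the polygon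
  `x_0 x_0 x_1 x_1 ⋯` to `BG`; `wordClass x h _` is the image of its fundamental class, and
  `pairing om x h` is the value of the 2-cocycle `om` on it (`K2/Homology.lean`, `K2/Nondeg.lean`).
* `PhiT x h ψ0` is the form `Φ_x ⊗ ψ0` (`K2V/Phi.lean`); `IsLift f ψ x h ψ0` says that `ψ` is a
  form over `R[G]` whose image over `S[G]` is `Φ_x ⊗ ψ0`, and `IsConst c` that `c` is a form over
  `R` (`K2V/Final.lean`).
-/

namespace Pool.Agent.Results.MP_8a3537_gt.DegreeTwo

open Matrix MonoidAlgebra TensorProduct Pool.Agent.Lib.MP8a3537.GA Pool.Agent.Lib.MP8a3537.K2V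
open Pool.Agent.Lib.MP8a3537.K2 (bd pairing wordClass H2)
open Pool.Agent.Lib.MP8a3537.D1R (V arfR IsSymplectic arfBasis)

variable {R S G : Type} [Ring R] [StarRing R] [Ring S] [StarRing S] [Group G]

/-- The value of `e : L_n^s(R[G]) → V(S)` on the lifts of `Φ_x ⊗ ψ0` is `⟨om, x⟩ Arf(ψ0)`. -/
def HasValues (f : R →+* S) (ε : ℤˣ) (om : G → G → ZMod 2) (e : L0s R G (ε : ℤ) →+ V S) : Prop :=
  ∀ (ψ : NForm R G (ε : ℤ)) (x : ℕ → G) (h : ℕ) (k : Type) [Fintype k] [DecidableEq k]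
    (ψ0 : Matrix k k S), bd x h = 1 → IsUnit (ψ0 + (ε : ℤ) • ψ0ᴴ) → IsLift f ψ x h ψ0 →
    e ψ.cls = if pairing om x h = 0 then 0 else arfR ε ψ0

/-- The form `φ` is `u^* ψ u + η - ε η^*`, up to the numbering of the base. -/
def IsBaseChange {ep : ℤ} (ψ φ : NForm R G ep) (u : (Matrix ψ.κ ψ.κ (MonoidAlgebra R G))ˣ) : Prop :=
  ∃ (σ : φ.κ ≃ ψ.κ) (η : Matrix ψ.κ ψ.κ (MonoidAlgebra R G)),
    φ.mat = (dual u.val * ψ.mat * u.val + η - ep • dual η).submatrix σ σ

/-- There are a homomorphism `e : L_n^s(R[G]) → V(S)` which has the value `⟨om, x⟩ Arf(ψ0)` on the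
lifts of `Φ_x ⊗ ψ0` and is zero on forms over `R`, and homomorphisms `d : GL_κ(R[G]) → V(S)` which
are zero on simple matrices, such that `e` changes by `d(u)` under the change `u` of the base. -/
def HasInvariant (f : R →+* S) (ε : ℤˣ) (om : G → G → ZMod 2) : Prop :=
  ∃ (e : L0s R G (ε : ℤ) →+ V S)
    (d : (κ : Type) → [Fintype κ] → [DecidableEq κ] →
      (Matrix κ κ (MonoidAlgebra R G))ˣ →* Multiplicative (V S)),
    HasValues f ε om e ∧
    (∀ c : NForm R G (ε : ℤ), IsConst c → e c.cls = 0) ∧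
    (∀ (κ : Type) [Fintype κ] [DecidableEq κ] (u : (Matrix κ κ (MonoidAlgebra R G))ˣ),
      u ∈ Simple R G κ → d κ u = 1) ∧
    (∀ (ψ φ : NForm R G (ε : ℤ)) (u : (Matrix ψ.κ ψ.κ (MonoidAlgebra R G))ˣ),
      IsBaseChange ψ φ u → e φ.cls = e ψ.cls + Multiplicative.toAdd (d ψ.κ u))

/-- If a sum of lifts of forms `Φ_x ⊗ ψ0` and of a form over `R` is zero in `L_n^s(R[G])`, then
the sum of the elements `[x] ⊗ Arf(ψ0)` is zero in `H_2(G; ℤ/2) ⊗ V(S)`. -/
def Injective (f : R →+* S) (G : Type) [Group G] (ε : ℤˣ) : Prop :=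
  ∀ (r : ℕ) (ψ : Fin r → NForm R G (ε : ℤ)) (x : Fin r → ℕ → G) (h : Fin r → ℕ)
    (hx : ∀ j, bd (x j) (h j) = 1) (k : Fin r → Type) [∀ j, Fintype (k j)]
    [∀ j, DecidableEq (k j)] (ψ0 : ∀ j, Matrix (k j) (k j) S) (c : NForm R G (ε : ℤ)),
    (∀ j, IsUnit (ψ0 j + (ε : ℤ) • (ψ0 j)ᴴ)) → (∀ j, IsLift f (ψ j) (x j) (h j) (ψ0 j)) →
    IsConst c → ∑ j, (ψ j).cls + c.cls = 0 →
    ∑ j, wordClass (x j) (h j) (hx j) ⊗ₜ[ℤ] arfR ε (ψ0 j) = 0

/-- **Theorem.** Let `G` be a group without elements of order two, `S` a ring with involution with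
`2 = 0`, and `f : R → S` a homomorphism of rings with involution.

(1) For every 2-cocycle `om : G × G → ℤ/2` there is a homomorphism `e : L_n^s(R[G]) → V(S)` which
is zero on forms over `R` and has the value `⟨om, x⟩ Arf(ψ0)` on the lifts of `Φ_x ⊗ ψ0`. Under an
arbitrary change `u` of the base it changes by `d(u)`, where `d` is a homomorphism which is zero
on simple matrices.

(2) If a sum of lifts of forms `Φ_x ⊗ ψ0` and of a form over `R` is zero in `L_n^s(R[G])`, then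
the sum of the elements `[x] ⊗ Arf(ψ0)` is zero in `H_2(G; ℤ/2) ⊗ V(S)`.

(3) Every element of `H_2(G; ℤ/2)` is the class of a word, which can be taken of even length.

(4) The forms `Φ_x ⊗ ψ0` exist over `S[G]`. (5) `Arf(ψ0)` is the class of `∑ q(e_i) q(f_i)` for
every symplectic basis `e, f`.

(6) For words of even length the form `Φ_x ⊗ (1 1; 0 1)` over `ℤ/2[G]` has a lift to `ℤ[G]`.
(7) If a sum of such lifts and of a form over `ℤ` is zero in `L_0^s(ℤ[G])`, then the sum of the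
classes `[x]` is zero in `H_2(G; ℤ/2)`. -/
theorem result (R S G : Type) [Ring R] [StarRing R] [Ring S] [StarRing S] [Group G]
    (hG : ∀ g : G, g * g = 1 → g = 1) (hS : ∀ x : S, x + x = 0) (f : R →+* S)
    (hf : ∀ x, f (star x) = star (f x)) (ε : ℤˣ) :
    (∀ om : G → G → ZMod 2, (∀ g h k, om g h + om (g * h) k = om h k + om g (h * k)) →
      HasInvariant f ε om) ∧
    Injective f G ε ∧
    (∀ z : H2 G, ∃ (x : ℕ → G) (h : ℕ) (hx : bd x h = 1), Even h ∧ wordClass x h hx = z) ∧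
    (∀ (x : ℕ → G) (h : ℕ), bd x h = 1 → ∀ (k : Type) [Fintype k] [DecidableEq k]
      (ψ0 : Matrix k k S), IsUnit (ψ0 + (ε : ℤ) • ψ0ᴴ) →
      ∃ ψ : NForm S G (ε : ℤ), IsLift (RingHom.id S) ψ x h ψ0) ∧
    (∀ (k : Type) [Fintype k] [DecidableEq k] (ψ0 : Matrix k k S) (m : ℕ) (e f : Fin m → k → S),
      IsSymplectic ε ψ0 e f → arfR ε ψ0 = arfBasis ψ0 e f) ∧
    (∀ (x : ℕ → G) (h : ℕ), bd x h = 1 → Even h →
      ∃ ψ : NForm ℤ G 1, IsLift (Int.castRingHom (ZMod 2)) ψ x h !![1, 1; 0, 1]) ∧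
    (∀ (r : ℕ) (ψ : Fin r → NForm ℤ G 1) (x : Fin r → ℕ → G) (h : Fin r → ℕ)
      (hx : ∀ j, bd (x j) (h j) = 1) (c : NForm ℤ G 1),
      (∀ j, IsLift (Int.castRingHom (ZMod 2)) (ψ j) (x j) (h j) !![1, 1; 0, 1]) →
      IsConst c → ∑ j, (ψ j).cls + c.cls = 0 →
      ∑ j, wordClass (x j) (h j) (hx j) = 0) :=
  ⟨fun om hom => by
      obtain ⟨e, d, h1, h2, h3, h4⟩ := exists_hom hS hG f hf ε om hom
      exact ⟨e, d, h1, h2, h3, fun ψ φ u ⟨σ, η, h⟩ => h4 ψ φ σ u η h⟩,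
    fun r ψ x h hx k _ _ ψ0 c hψ0 hl hc hz => injective hS hG f hf ε r ψ x h hx k ψ0 hψ0 c hl hc hz,
    fun z => Pool.Agent.Lib.MP8a3537.K2.exists_word_even z,
    fun x h hx _ _ _ ψ0 hψ0 => exists_form hS hG ε x h hx ψ0 hψ0,
    fun _ _ _ ψ0 _ e f hs => Pool.Agent.Lib.MP8a3537.D1R.arfR_basis ψ0 e f hs,
    fun x h hx he => exists_lift x h hx he,
    fun r ψ x h hx c hl hc hz => injective_int hG r ψ x h hx c hl hc hz⟩

end Pool.Agent.Results.MP_8a3537_gt.DegreeTwo
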