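import Pool.Agent.Lib.MP_8a3537_gt.AR.LBA

/-!
# Unitary nilpotent forms over an arbitrary ring with involution

A group `G` acts on a tree `T`, and `v`, `w` are adjacent vertices; `H` is the stabilizer of the
edge `(v, w)`, which is not inverted. `R` is an arbitrary ring with involution, and `R[G]` has the
involution `(∑ r_g g)^* = ∑ r_g^* g⁻¹` (`star`, see `UV/Defs.lean`); `ᴴ` is the conjugate transpose.
`X`, `Y`, `B` are the sets of the elements which fix `v` and move `w`, which fix `w` and move `v`, and which
map `v` to `w`. (For a generalized free product `G = G_v *_H G_w` acting on its tree, `B` is empty; for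
an HNN extension `v` and `w` are in the same orbit.)

`UF ψ μ χ` is the `ε`-quadratic form `(ψ, 1 + μ^*; 0, χ)` on `R[G]^n ⊕ R[G]^n`, where the entries of
`ψ`, `μ`, `χ` are supported on `X`, `B`, `Y`, and `nu ε a μ b = (μ, ε b; a, μ^*)`, with
`a = ψ + ε ψ^*`, `b = χ + ε χ^*`, so that the polarization `UF + ε UF^*` is
`(0, 1; ε, 0) (1 + nu ε a μ b)`. These forms with `nu ε a μ b` nilpotent are the forms of Cappell's
group `UNil_i(R[H]; R[X], R[Y])`, `i` even, `ε = (-1) ^ (i / 2)`.

`AR.SHp ε Ψ` (`AR/Defs.lean`): for some `m`, the form `Ψ' = Ψ ⊕ h_m`, `h = (0, 1; 0, 0)`, is the hyperbolic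
form of a finitely generated projective module (`AR.HypP`): `Ψ' + ε Ψ'^*` is invertible, and there is an
idempotent `e` such that `e^* Ψ' e` and `(1 - e)^* Ψ' (1 - e)` are of the form `Z - ε Z^*`. This means that
`Ψ` is zero in `L_i^p(R[G])`, and so in `L_i^{-∞}(R[G])`.

`A` is a normal subgroup of `G` which acts trivially on the tree; `A = 1` is the main case. No element
`g` of `G` with `g² ∈ A` fixes exactly one of the vertices `v`, `w`. The hypothesis on the edge is

(a) `LocCyc A H`: every two elements of `H / A` are in an infinite cyclic (or trivial) subgroup of `H / A`,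
that is, the finitely generated subgroups of `H / A` are infinite cyclic or trivial; or

(b) `Abel T A v w`: `H / A` is torsion-free abelian, and the following holds for every `g` which exchanges two
vertices `x`, `y` such that the path from `x` to `y` passes through `v` and then through `w`: if there
is no `k ∈ K = G_x ∩ G_y` with `(k g)² ∈ A` (we say that `g` is a flip of `x`, `y`), then `g` commutes with `K` modulo
`A`. (Then `g² ∈ K`, and `K ≤ H`. For instance `A = 1`, `G` is torsion-free and acts without inversions, `H` is
abelian, and in the stabilizers of the vertices commutativity is transitive on the elements `≠ 1`: `g` fixes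
the middle of the path, and commutes with `g²`, which commutes with `K`.); or

(c) `OddHom T A v w`: if `g` is a flip of `x`, `y` and `f` is a flip of `x'`, `y'`, with `x' = x` or `y' = y`, and a
longer path, and `K'` is the stabilizer of `x'`, `y'`, then every finite subset of `K g ∪ K' f` is contained in a
subgroup which has a homomorphism to `ℤ` which is zero on `A` and odd on the subset. For instance, there is a
homomorphism `G → ℤ` which is zero on `A` and odd on all flips (`AR.oddP_of_hom`). There is no hypothesis on `H`.

There is no hypothesis on the ring `R` (it need not be regular or noetherian, `2` need not be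
invertible), and none on the stabilizers of the vertices. With `R[ℤ] = R[z, z⁻¹]`, `z^* = z⁻¹`, in the place
of `R` the theorem gives the case of odd `i`. So the map from `UNil_i` to `L_i^{-∞}(R[G])` is zero, for all
`i` and all `R`, and by the Mayer–Vietoris sequence of Cappell and Ranicki a torsion-free group `G` which
acts without inversions on a tree satisfies Q1 for `R` if the stabilizers of the vertices do and the
stabilizers of the edges are trivial or locally infinite cyclic, or torsion-free abelian with (b), or satisfy
Q1 for `R` and (c).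
The group `A` gives the same for extensions `1 → A → G → Q → 1` and edges of a tree on which `Q` acts: these
are vanishing theorems for `Q` with twisted coefficients `R[A]`.

Idea of the proof. If every nilpotent form over a pair of elements `g`, `f` which exchange pairs of
vertices `x`, `y` and `x'`, `y'` (with `x = x'` or `y = y'`, and supports `K g` and `K' f`) is zero in `L^p`, then all
the nilpotent forms of the edge are (`AR.mFLT`). For these there is locally a homomorphism to `ℤ` which is
even on `K'` and `K` and odd on `g`, `f`; then the form is isometric to one with odd entries, and such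
forms vanish in `L^p` for every ring (`AR/LAM.lean`, `AR/LBK.lean`).
-/

namespace Pool.Agent.Results.MP_8a3537_gt.EveryRing

open Matrix Pool.Agent.Lib.MP8a3537 Pool.Agent.Lib.MP8a3537.UV

/-- The stabilizer of the two vertices `x`, `y`. -/
abbrev St (G : Type) {V : Type} [Group G] [MulAction G V] (x y : V) : Subgroup G :=
  MulAction.stabilizer G x ⊓ MulAction.stabilizer G y

/-- The finitely generated subgroups of `H / A` are trivial or infinite cyclic: every two elements of
`H / A` are powers of one element, and `H / A` is torsion-free. -/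
def LocCyc {G : Type} [Group G] (A H : Subgroup G) : Prop :=
  (∀ x ∈ H, ∀ y ∈ H, ∃ z ∈ H, ∃ i j : ℤ, (z ^ i)⁻¹ * x ∈ A ∧ (z ^ j)⁻¹ * y ∈ A) ∧
    ∀ x ∈ H, ∀ n : ℤ, x ^ n ∈ A → n = 0 ∨ x ∈ A

/-- Modulo `A` the stabilizer of `v` and `w` is torsion-free abelian, and every `g` which exchanges two
vertices `x`, `y` with `v`, `w` (in this order) on their path commutes with the stabilizer of `x` and `y`
modulo `A`, if `(k g)²` is not in `A` for all `k` in this stabilizer. -/
def Abel {G V : Type} [Group G] [MulAction G V] (T : SimpleGraph V) (A : Subgroup G) (v w : V) :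
    Prop :=
  (∀ a ∈ St G v w, ∀ b ∈ St G v w, a * b * a⁻¹ * b⁻¹ ∈ A) ∧
  (∀ a ∈ St G v w, ∀ n : ℕ, n ≠ 0 → a ^ n ∈ A → a ∈ A) ∧
  ∀ (x y : V) (g : G), T.dist x y = T.dist x v + T.dist v w + T.dist w y → g • x = y → g • y = x →
    (∀ k ∈ St G x y, k * g * (k * g) ∉ A) → ∀ k ∈ St G x y, g * k * g⁻¹ * k⁻¹ ∈ A

/-- If `g` exchanges `x` and `y`, `f` exchanges `x'` and `y'`, the vertices `v`, `w` are (in this order) on both
paths, `x' = x` or `y' = y`, the second path is longer, and no `(k g)²`, `k ∈ K = G_x ∩ G_y`, and no `(k f)²`,
`k ∈ K' = G_x' ∩ G_y'`, is in `A`, then every finite subset `F` of `K g ∪ K' f` is contained in a subgroup `Q`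
which has a homomorphism to `ℤ` which is zero on `A ≤ Q` and odd on `F`. -/
def OddHom {G V : Type} [Group G] [MulAction G V] (T : SimpleGraph V) (A : Subgroup G) (v w : V) :
    Prop :=
  ∀ (x y x' y' : V) (g f : G),
    T.dist x y = T.dist x v + 1 + T.dist w y → g • x = y → g • y = x →
    (∀ k ∈ St G x y, k * g * (k * g) ∉ A) →
    T.dist x' y' = T.dist x' v + 1 + T.dist w y' → f • x' = y' → f • y' = x' →
    (∀ k ∈ St G x' y', k * f * (k * f) ∉ A) →
    (x' = x ∨ y' = y) → T.dist x y < T.dist x' y' →
    ∀ F : Finset G, (∀ z ∈ F, (∃ k ∈ St G x y, z = k * g) ∨ ∃ k ∈ St G x' y', z = k * f) →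
      ∃ (Q : Subgroup G) (lam : Q →* Multiplicative ℤ),
        (∀ a ∈ A, ∃ ha : a ∈ Q, lam ⟨a, ha⟩ = 1) ∧
        ∀ z ∈ F, ∃ hz : z ∈ Q, Odd (Multiplicative.toAdd (lam ⟨z, hz⟩))

/-- **Theorem.** Let `R` be any ring with involution, and let `G` act on a tree `T`. Let `v`, `w` be
adjacent vertices which are not exchanged by an element of `G`, and let `A` be a normal subgroup of `G`
which acts trivially on `T` such that no `g` with `g² ∈ A` fixes exactly one of `v`, `w`. Suppose that,
modulo `A`, the stabilizer of `v` and `w` is locally infinite cyclic (or trivial), or torsion-free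
abelian with condition (b) above, or that condition (c) holds. Then all the unitary nilpotent forms of
the edge are zero in `L^p`. -/
theorem result (R G V : Type) [Ring R] [StarRing R] [Group G] [MulAction G V]
    (T : SimpleGraph V) (v w : V) (hT : T.IsTree)
    (hact : ∀ (g : G) (x y : V), T.Adj x y → T.Adj (g • x) (g • y)) (hvw : T.Adj v w)
    (hinv : ∀ g : G, ¬ (g • v = w ∧ g • w = v)) (A : Subgroup G) [A.Normal]
    (hA : ∀ a ∈ A, ∀ x : V, a • x = x)
    (htwo : ∀ g : G, g * g ∈ A → (g • v = v ↔ g • w = w))
    (hH : LocCyc A (St G v w) ∨ Abel T A v w ∨ OddHom T A v w)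
    (ε : ℤˣ) (n : ℕ) (ψ μ χ : Matrix (Fin n) (Fin n) (MonoidAlgebra R G))
    (hψ : SuppIn {g | g • v = v ∧ g • w ≠ w} ψ) (hμ : SuppIn {g | g • v = w} μ)
    (hχ : SuppIn {g | g • w = w ∧ g • v ≠ v} χ)
    (hnil : IsNilpotent (nu ε (ψ + (ε : ℤ) • ψᴴ) μ (χ + (ε : ℤ) • χᴴ))) :
    AR.SHp ε (UF ψ μ χ) := by
  rcases hH with h | h | h
  · exact AR.mainL AR.mMainAb R G V T v w hT hact hvw hinv A hA htwo h ε n ψ μ χ hψ hμ hχ hnil
  · exact AR.mainA AR.mMainAb R G V T v w hT hact hvw hinv A hA htwo h ε n ψ μ χ hψ hμ hχ hnil
  · exact AR.mainP R G V T v w hT hact hvw hinv A hA htwo h ε n ψ μ χ hψ hμ hχ hnil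

end Pool.Agent.Results.MP_8a3537_gt.EveryRing
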