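import Pool.Agent.Lib.MP_8a3537_gt.AR.LFU

/-!
# Unitary nilpotent forms of a tree: decomposition and vanishing

A group `G` acts on a tree `T`, and `v`, `w` are adjacent vertices; `H` is the stabilizer of the
edge `(v, w)`, which is not inverted. `R` is a ring with involution, and `R[G]` has the involution
`(∑ r_g g)^* = ∑ r_g^* g⁻¹` (`star`, see `UV/Defs.lean`); `ᴴ` is the conjugate transpose. `X`, `Y`,
`B_0` are the sets of the elements which fix `v` and move `w`, which fix `w` and move `v`, and which map
`v` to `w`. (For a generalized free product `G = G_v *_H G_w` acting on its tree, `B_0` is empty; for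
an HNN extension `v` and `w` are in the same orbit.)

`UF ψ μ χ` is the `ε`-quadratic form `(ψ, 1 + μ^*; 0, χ)` on `R[G]^n ⊕ R[G]^n`, where the entries of
`ψ`, `μ`, `χ` are supported on `X`, `B_0`, `Y`, and `nu ε a μ b = (μ, ε b; a, μ^*)`, with
`a = ψ + ε ψ^*`, `b = χ + ε χ^*`, so that the polarization `UF + ε UF^*` is
`(0, 1; ε, 0) (1 + nu ε a μ b)`. These forms with `nu ε a μ b` nilpotent are the forms of Cappell's
group `UNil_i(R[H]; R[X], R[Y])`, `i` even, `ε = (-1) ^ (i / 2)`.

ADMISSIBLE SEQUENCES (`Adm`): vertices `x_j`, `y_j` and elements `u_j`, `j ≥ 0`, with `x_0 = v`, `y_0 = w`; the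
path from `x_{j+1}` to `y_{j+1}` contains `x_j`, `y_j` in this order, and is longer than the one from `x_j`
to `y_j`; and for `j ≥ 1`, with `K_j = G_{x_j} ∩ G_{y_j}` and `F_j = K_j u_j`: `u_j` exchanges `x_j` and
`y_j`, the coset `F_j` contains no element of order two, `x_{j+1} = x_j` or `y_{j+1} = y_j`, and `u_{j+2}` is
in `F_j`. So `K_0 = H`, and the `K_j` decrease. For every admissible sequence without a good `K_j` (`Bad`) an
index `i = c x y u ≥ 1` is chosen.

The conclusion `AR.SGen (Gen R T v w c) ε (UF ψ μ χ)` (`AR/GEN.lean`) says: for some `m` the form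
`UF ψ μ χ ⊕ h_m`, `h = (0, 1; 0, 0)`, is isometric (`u^* Φ u + Z - ε Z^*`, `u` invertible) to an
orthogonal sum (`AR.FSum`) of hyperbolic forms `h_l` and of forms `UF ψ 0 χ` in `Gen R T v w c`: the images
of forms `UF ψ' 0 χ'` over the group ring `R[E]` of the amalgam `E = ⟨K_i, u_i⟩ *_{K_{i+1}} ⟨K_{i+1}, u_{i+1}⟩` (`AR.Am`,
`AR/LFU.lean`) under `E → G`, for an admissible sequence without a good `K_j` and its index `i`; here `ψ'`
is supported on `F_i` in the first factor, `χ'` is supported on `F_{i+1}` in the second factor, and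
`nu ε (ψ' + ε ψ'^*) 0 (χ' + ε χ'^*)` is nilpotent (`AR.LiftA`). Since `K_i`, `K_{i+1}` have index two in the
factors, `E` has a homomorphism onto the infinite dihedral group (`K_i ↦ 1`, the `u`'s to the two
generating reflections; see `AR/DIH.lean`), and the preimages of the reflections contain `F_i`, `F_{i+1}`.

SPECIAL CASES. (1) `H = K_0` is good: there are no admissible sequences without a good `K_j`, and all the forms
are stably hyperbolic, that is `UNil_i(R[H]; R[X], R[Y]) = 0`. This is the analogue in `L`-theory of
Waldhausen's theorem on the `K`-theory of generalized free products and HNN extensions (regular coherent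
`R[H]`). (2) The same if every admissible sequence contains a good `K_j`; for instance, if `K = G_x ∩ G_y` is good
for all pairs of vertices which are exchanged by an element of `G`. (3) No `K_j` is good, `c = 1`: there is
no hypothesis besides the ones on the edge and on elements of order two, and the theorem says, for every
ring `R`, that the nilpotent forms come from groups `E` with a homomorphism onto the infinite dihedral group
(for torsion-free `G` they are torsion-free, `AR/TOR.lean`). So, for every `R`, the vanishing of all these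
forms in `L^p` for all torsion-free groups is equivalent to the vanishing for the torsion-free groups `E` with a
homomorphism onto the infinite dihedral group (`AR.treesTF_iff`, `AR/DHA.lean`). If `H` is abelian and `G`
torsion-free then `E` has a subgroup of index two which is the fundamental group of a graph of abelian groups
(an HNN extension of `K_i`), so by the theorem of Gandini, Meinert and Rüping (the Farrell–Jones conjecture
for these groups and their finite extensions) the forms are zero in `L^{-∞}`, for every ring `R`. (4) Other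
choices of `c`: if the sequence `K_j` becomes constant (`K_{i+1} = K_i = K`), then `E` is an extension of the
infinite dihedral group by `K`.

`Good R K`: `R` is in the smallest class (`Cl`) of rings with involution which
* contains all `S` such that `S[K]` is regular coherent of finite dimension, that is (`DG.RC`,
  `DG/Defs.lean`) `S[K]` is coherent (`coh`: the kernels of all matrices are finitely generated), every
  finitely presented module has a finite free resolution (`ffr`), and `Ext^j(M, S[K]) = 0` for `j > d` and
  all finitely presented `M` (`injdim`). By the theorem `CT.rcm` (folder `CT`) this is so if `S` is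
  noetherian, its finitely generated modules have free resolutions of bounded length, and `K` is in
  Waldhausen's class `CT.TZ h`, which contains free groups, surface groups of positive genus, poly-infinite-cyclic
  groups, the groups `⟨a, t | t a^m t⁻¹ = a^n⟩`, and towers of amalgams and HNN extensions of them
  along poly-infinite-cyclic groups;
* (`nil`) contains `S` if it contains `S'`, `S → S'` surjective with locally nilpotent kernel (finite
  sets of elements of the kernel are in nilpotent ideals; for instance `S = ℤ/4`, `S' = ℤ/2`);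
* (`col`) is closed under directed colimits, for instance unions;
* (`patch`) contains `S` if there is a commutative ring `C` which maps to the central self-adjoint
  elements of `S` such that the class contains `S_M[t]`, `t^* = t`, for all maximal ideals `M` of `C` with
  `2 ∈ M` (so only the prime `2` matters).
-/

namespace Pool.Agent.Results.MP_8a3537_gt.ExchangedPairs

open Matrix Pool.Agent.Lib.MP8a3537 Pool.Agent.Lib.MP8a3537.UV

/-- The closure properties of a class `Q` of rings with involution. -/
structure Closed (Q : (R : Type) → [Ring R] → [StarRing R] → Prop) : Prop where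
  /-- `π : R → R'` is surjective and its kernel is locally nilpotent -/
  nil : ∀ (R R' : Type) [Ring R] [StarRing R] [Ring R'] [StarRing R'] (π : R →+* R'),
    (∀ r, π (star r) = star (π r)) → Function.Surjective π → CR.LocNil π → Q R' → Q R
  /-- `R` is the directed colimit of the rings `S i` -/
  col : ∀ (I : Type) [Preorder I] (S : I → Type) [∀ i, Ring (S i)] [∀ i, StarRing (S i)]
    (f : ∀ i j, i ≤ j → (S i →+* S j)) (R : Type) [Ring R] [StarRing R] (g : ∀ i, S i →+* R),
    CR.IsCol S f g → (∀ i, ∃ j, i ≤ j ∧ Q (S j)) → Q R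
  /-- patching over the maximal ideals which contain `2` of a ring of central self-adjoint elements -/
  patch : ∀ (R C : Type) [Ring R] [StarRing R] [CommRing C] (i : C →+* R),
    (∀ (c : C) (a : R), i c * a = a * i c) → (∀ c : C, star (i c) = i c) →
    (∀ M : Ideal C, M.IsMaximal → (2 : C) ∈ M →
      ∃ (R' : Type) (_ : Ring R') (_ : StarRing R') (φ : R →+* R'),
        (∀ r, φ (star r) = star (φ r)) ∧ (∀ s : C, s ∉ M → IsUnit (φ (i s))) ∧
        (∀ x : R', ∃ s : C, s ∉ M ∧ ∃ y : R, φ (i s) * x = φ y) ∧
        (∀ y : R, φ y = 0 → ∃ s : C, s ∉ M ∧ i s * y = 0) ∧ Q (Polynomial R')) → Q R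

/-- The group `K` is good for the ring `R`: `R` is in the smallest closed class which contains the
rings `S` such that `S[K]` is regular coherent of finite dimension. -/
def Good (R : Type) [Ring R] [StarRing R] (K : Type) [Group K] : Prop :=
  ∀ Q : (R : Type) → [Ring R] → [StarRing R] → Prop, Closed Q →
    (∀ (S : Type) [Ring S] [StarRing S], (∃ d : ℕ, DG.RC (MonoidAlgebra S K) d) → Q S) → Q R

/-- The stabilizer of the two vertices `x`, `y`. -/
abbrev St (G : Type) {V : Type} [Group G] [MulAction G V] (x y : V) : Subgroup G :=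
  MulAction.stabilizer G x ⊓ MulAction.stabilizer G y

/-- Admissible sequences. -/
structure Adm {G V : Type} [Group G] [MulAction G V] (T : SimpleGraph V) (v w : V) (x y : ℕ → V)
    (u : ℕ → G) : Prop where
  x0 : x 0 = v
  y0 : y 0 = w
  path : ∀ i, T.dist (x (i + 1)) (y (i + 1)) =
    T.dist (x (i + 1)) (x i) + T.dist (x i) (y i) + T.dist (y i) (y (i + 1))
  grow : ∀ i, T.dist (x i) (y i) < T.dist (x (i + 1)) (y (i + 1))
  exch : ∀ i, 1 ≤ i → u i • x i = y i ∧ u i • y i = x i
  two : ∀ i, 1 ≤ i → ∀ k ∈ St G (x i) (y i), k * u i * (k * u i) ≠ 1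
  one : ∀ i, 1 ≤ i → x (i + 1) = x i ∨ y (i + 1) = y i
  rep : ∀ i, 1 ≤ i → ∃ k ∈ St G (x i) (y i), u (i + 2) = k * u i

/-- No stabilizer of the sequence is good. -/
def Bad (R G : Type) {V : Type} [Ring R] [StarRing R] [Group G] [MulAction G V] (x y : ℕ → V) :
    Prop :=
  ∀ j, ¬ Good R ↥(St G (x j) (y j))

/-- The generators: the images of the nilpotent forms `UF ψ' 0 χ'` over the group ring of the amalgam
`⟨K_i, u_i⟩ *_{K_{i+1}} ⟨K_{i+1}, u_{i+1}⟩` with supports in `K_i u_i` and `K_{i+1} u_{i+1}`, for the
admissible sequences without a good stabilizer, and `i = c x y u`. -/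
def Gen (R : Type) {G V : Type} [Ring R] [StarRing R] [Group G] [MulAction G V]
    (T : SimpleGraph V) (v w : V) (c : (ℕ → V) → (ℕ → V) → (ℕ → G) → ℕ) (ε : ℤˣ) (n : ℕ)
    (ψ χ : Matrix (Fin n) (Fin n) (MonoidAlgebra R G)) : Prop :=
  ∃ (x y : ℕ → V) (u : ℕ → G) (i : ℕ) (hle : St G (x (i + 1)) (y (i + 1)) ≤ St G (x i) (y i)),
    Adm T v w x y u ∧ Bad R G x y ∧ i = c x y u ∧
    AR.LiftA (St G (x i) (y i)) (St G (x (i + 1)) (y (i + 1))) hle (u i) (u (i + 1)) ε n ψ χ

theorem gc_of_good {R : Type} [Ring R] [StarRing R] {K : Type} [Group K] (h : Good R K) :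
    DG.GC R K := by
  refine h (fun S _ _ => DG.GC S K) ?_ fun S _ _ hS => CR.Cls.base (Or.inl hS)
  have hc := CR.closed_cls (DG.GR K)
  exact ⟨hc.nil, hc.col, hc.patch⟩

/-- **Theorem.** Let `R` be a ring with involution, and let `G` act on a tree `T`. Let `v`, `w` be
adjacent vertices which are not exchanged by an element of `G`, and suppose that no element of order
two of `G` fixes exactly one of them. Let an index `i = c x y u ≥ 1` be chosen for every admissible sequence
without a good stabilizer. Then every unitary nilpotent form of the edge is, up to a hyperbolic form,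
isometric to an orthogonal sum of hyperbolic forms and of images of unitary nilpotent forms over the
group rings of the amalgams `⟨K_i, u_i⟩ *_{K_{i+1}} ⟨K_{i+1}, u_{i+1}⟩`, with supports in `K_i u_i` and
`K_{i+1} u_{i+1}`. -/
theorem result (R G V : Type) [Ring R] [StarRing R] [Group G] [MulAction G V]
    (T : SimpleGraph V) (v w : V) (hT : T.IsTree)
    (hact : ∀ (g : G) (x y : V), T.Adj x y → T.Adj (g • x) (g • y)) (hvw : T.Adj v w)
    (hinv : ∀ g : G, ¬ (g • v = w ∧ g • w = v))
    (htwo : ∀ g : G, g * g = 1 → (g • v = v ↔ g • w = w))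
    (c : (ℕ → V) → (ℕ → V) → (ℕ → G) → ℕ)
    (hc : ∀ (x y : ℕ → V) (u : ℕ → G), Adm T v w x y u → Bad R G x y → 1 ≤ c x y u)
    (ε : ℤˣ) (n : ℕ) (ψ μ χ : Matrix (Fin n) (Fin n) (MonoidAlgebra R G))
    (hψ : SuppIn {g | g • v = v ∧ g • w ≠ w} ψ) (hμ : SuppIn {g | g • v = w} μ)
    (hχ : SuppIn {g | g • w = w ∧ g • v ≠ v} χ)
    (hnil : IsNilpotent (nu ε (ψ + (ε : ℤ) • ψᴴ) μ (χ + (ε : ℤ) • χᴴ))) :
    AR.SGen (Gen R T v w c ε) ε (UF ψ μ χ) := by
  classical
  have hd : ROK.TM G (V := V) T.dist := ROK.specFPT G V T hT hact
  refine AR.sgen_mono ?_ (AR.tD R G V T v w hT hact hvw hinv htwo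
    (fun C D => ∃ (x y : ℕ → V) (u : ℕ → G), Adm T v w x y u ∧ Bad R G x y ∧
      C = {a | ∃ k ∈ St G (x (c x y u)) (y (c x y u)), a = k * u (c x y u)} ∧
      D = {a | ∃ k ∈ St G (x (c x y u + 1)) (y (c x y u + 1)), a = k * u (c x y u + 1)})
    ?_ ε n ψ μ χ hψ hμ hχ hnil)
  · rintro m ψ χ ⟨C, D, ⟨x, y, u, hA, hbad, rfl, rfl⟩, h3, h4, h5⟩
    have hA' : AR.Adm T v w x y u :=
      ⟨hA.x0, hA.y0, hA.path, hA.grow, hA.exch, hA.two, hA.one, hA.rep⟩
    exact ⟨x, y, u, c x y u, hA'.le hd _, hA, hbad, rfl,
      AR.liftA_of_liftF (AR.lift_adm hd hA' _ (hc x y u hA hbad) (hA'.le hd _) ε m ψ χ h3 h4 h5)⟩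
  · intro x y u h
    have hA : Adm T v w x y u := ⟨h.x0, h.y0, h.path, h.grow, h.exch, h.two, h.one, h.rep⟩
    by_cases hbad : Bad R G x y
    · exact Or.inr ⟨c x y u, hc x y u hA hbad, x, y, u, hA, hbad, rfl, rfl⟩
    · unfold Bad at hbad
      push Not at hbad
      obtain ⟨j, hj⟩ := hbad
      exact Or.inl ⟨j, gc_of_good hj⟩

end Pool.Agent.Results.MP_8a3537_gt.ExchangedPairs
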